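import Pool.Agent.J5.H37.FD.Main

/-!
# The inverse of the Gram matrix
-/

set_option autoImplicit false

namespace Pool.Agent.J5.H37.FD

open Finset LaurentPolynomial Pool.Agent.H891R2.Jones Pool.Agent.W639.RB Pool.Agent.Y463.SK
  Pool.Agent.J5.H37.UJ

/-- addition of coefficient lists -/
def addL : List ℤ → List ℤ → List ℤ
  | [], y => y
  | x, [] => x
  | a :: x, b :: y => (a + b) :: addL x y

section

variable {R : Type*} [CommRing R] (d : R)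

/-- evaluation of a coefficient list -/
def pe : List ℤ → R
  | [] => 0
  | a :: x => a + d * pe x

theorem pe_add : ∀ x y : List ℤ, pe d (addL x y) = pe d x + pe d y
  | [], y => by simp [addL, pe]
  | a :: x, [] => by simp [addL, pe]
  | a :: x, b :: y => by
    have h1 : addL (a :: x) (b :: y) = (a + b) :: addL x y := rfl
    rw [h1]
    simp only [pe, pe_add x y, Int.cast_add]
    ring

theorem pe_shift (n : ℕ) (x : List ℤ) : pe d (List.replicate n 0 ++ x) = d ^ n * pe d x := by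
  induction n with
  | zero => simp
  | succ n ih =>
    rw [List.replicate_succ, List.cons_append, pe, ih, pow_succ', Int.cast_zero]
    ring

theorem pe_zero : ∀ x : List ℤ, x.all (fun a => a == 0) = true → pe d x = 0
  | [], _ => rfl
  | a :: x, h => by
    rw [List.all_cons, Bool.and_eq_true, beq_iff_eq] at h
    rw [pe, pe_zero x h.2, h.1, Int.cast_zero, mul_zero, add_zero]

theorem pe_neg : ∀ x : List ℤ, pe d (x.map (fun a => -a)) = -pe d x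
  | [] => by simp [pe]
  | a :: x => by
    rw [List.map_cons, pe, pe, pe_neg x, Int.cast_neg]
    ring

/-- the denominator -/
def DL : List ℤ := [0, 2, 0, -9, 0, 12, 0, -6, 0, 1]

/-- the inverse of the Gram matrix, times the denominator -/
def MT : Fin 14 → Fin 14 → List ℤ :=
  ![
    ![[0, 2, 0, -3, 0, 1], [-1, 0, 2, 0, -1], [0, 0, 1, 0, -1], [-1, 0, 2, 0, -1], [0, -1, 0, 1], [0, 0, 0,
      1], [0, -1, 0, 1], [0, -1, 0, 1], [0, -1, 0, 1], [1, 0, -1], [0, 0, -1], [0, 0, -1], [1, 0, -1], [0,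
      1]],
    ![[-1, 0, 2, 0, -1], [0, 1, 0, -2, 0, 1], [0, -1, 0, 2], [0, 0, 0, 1], [0, 0, 1, 0, -1], [0, 0, 0, 0,
      -1], [0, 0, 1, 0, -1], [1, 0, -2], [1, 0, -2], [0, -1, 0, 1], [0, 0, 0, 1], [0, 0, 0, 1], [0, -1, 0,
      1], [0, 0, -1]],
    ![[0, 0, 1, 0, -1], [0, -1, 0, 2], [0, 0, 0, 0, 0, 1], [0, -1, 0, 2], [0, 0, 0, 0, -1], [2, 0, -5], [0,
      0, 0, 0, -1], [0, 0, 0, 0, -1], [0, 0, 0, 0, -1], [0, 0, 0, 1], [0, -1, 0, 2], [0, -1, 0, 2], [0, 0,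
      0, 1], [0, 0, 1, 0, -1]],
    ![[-1, 0, 2, 0, -1], [0, 0, 0, 1], [0, -1, 0, 2], [0, 1, 0, -2, 0, 1], [1, 0, -2], [0, 0, 0, 0, -1],
      [1, 0, -2], [0, 0, 1, 0, -1], [0, 0, 1, 0, -1], [0, -1, 0, 1], [0, 0, 0, 1], [0, 0, 0, 1], [0, -1, 0,
      1], [0, 0, -1]],
    ![[0, -1, 0, 1], [0, 0, 1, 0, -1], [0, 0, 0, 0, -1], [1, 0, -2], [0, 0, 0, 1], [0, -1, 0, 2], [0, 1, 0,
      -2, 0, 1], [0, 0, 0, 1], [0, 0, 0, 1], [0, 0, -1], [1, 0, -2], [0, 0, 1, 0, -1], [-1, 0, 2, 0, -1],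
      [0, -1, 0, 1]],
    ![[0, 0, 0, 1], [0, 0, 0, 0, -1], [2, 0, -5], [0, 0, 0, 0, -1], [0, -1, 0, 2], [0, 0, 0, 0, 0, 1], [0,
      -1, 0, 2], [0, -1, 0, 2], [0, -1, 0, 2], [0, 0, 1, 0, -1], [0, 0, 0, 0, -1], [0, 0, 0, 0, -1], [0, 0,
      1, 0, -1], [0, 0, 0, 1]],
    ![[0, -1, 0, 1], [0, 0, 1, 0, -1], [0, 0, 0, 0, -1], [1, 0, -2], [0, 1, 0, -2, 0, 1], [0, -1, 0, 2],
      [0, 0, 0, 1], [0, 0, 0, 1], [0, 0, 0, 1], [-1, 0, 2, 0, -1], [0, 0, 1, 0, -1], [1, 0, -2], [0, 0,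
      -1], [0, -1, 0, 1]],
    ![[0, -1, 0, 1], [1, 0, -2], [0, 0, 0, 0, -1], [0, 0, 1, 0, -1], [0, 0, 0, 1], [0, -1, 0, 2], [0, 0, 0,
      1], [0, 0, 0, 1], [0, 1, 0, -2, 0, 1], [0, 0, -1], [0, 0, 1, 0, -1], [1, 0, -2], [-1, 0, 2, 0, -1],
      [0, -1, 0, 1]],
    ![[0, -1, 0, 1], [1, 0, -2], [0, 0, 0, 0, -1], [0, 0, 1, 0, -1], [0, 0, 0, 1], [0, -1, 0, 2], [0, 0, 0,
      1], [0, 1, 0, -2, 0, 1], [0, 0, 0, 1], [-1, 0, 2, 0, -1], [1, 0, -2], [0, 0, 1, 0, -1], [0, 0, -1],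
      [0, -1, 0, 1]],
    ![[1, 0, -1], [0, -1, 0, 1], [0, 0, 0, 1], [0, -1, 0, 1], [0, 0, -1], [0, 0, 1, 0, -1], [-1, 0, 2, 0,
      -1], [0, 0, -1], [-1, 0, 2, 0, -1], [0, 1], [0, -1, 0, 1], [0, -1, 0, 1], [0, 2, 0, -3, 0, 1], [1, 0,
      -1]],
    ![[0, 0, -1], [0, 0, 0, 1], [0, -1, 0, 2], [0, 0, 0, 1], [1, 0, -2], [0, 0, 0, 0, -1], [0, 0, 1, 0,
      -1], [0, 0, 1, 0, -1], [1, 0, -2], [0, -1, 0, 1], [0, 0, 0, 1], [0, 1, 0, -2, 0, 1], [0, -1, 0, 1],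
      [-1, 0, 2, 0, -1]],
    ![[0, 0, -1], [0, 0, 0, 1], [0, -1, 0, 2], [0, 0, 0, 1], [0, 0, 1, 0, -1], [0, 0, 0, 0, -1], [1, 0,
      -2], [1, 0, -2], [0, 0, 1, 0, -1], [0, -1, 0, 1], [0, 1, 0, -2, 0, 1], [0, 0, 0, 1], [0, -1, 0, 1],
      [-1, 0, 2, 0, -1]],
    ![[1, 0, -1], [0, -1, 0, 1], [0, 0, 0, 1], [0, -1, 0, 1], [-1, 0, 2, 0, -1], [0, 0, 1, 0, -1], [0, 0,
      -1], [-1, 0, 2, 0, -1], [0, 0, -1], [0, 2, 0, -3, 0, 1], [0, -1, 0, 1], [0, -1, 0, 1], [0, 1], [1, 0,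
      -1]],
    ![[0, 1], [0, 0, -1], [0, 0, 1, 0, -1], [0, 0, -1], [0, -1, 0, 1], [0, 0, 0, 1], [0, -1, 0, 1], [0, -1,
      0, 1], [0, -1, 0, 1], [1, 0, -1], [-1, 0, 2, 0, -1], [-1, 0, 2, 0, -1], [1, 0, -1], [0, 2, 0, -3, 0,
      1]]
  ]

/-- an entry of the product -/
def rs (i k : Fin 14) : List ℤ :=
  (List.finRange 14).foldr (fun j acc => addL (List.replicate (Lg i j) 0 ++ MT j k) acc) []

theorem rs_check : ∀ i k : Fin 14,
    (addL (rs i k) (if i = k then DL.map (fun a => -a) else [])).all (fun a => a == 0) = true := by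
  decide +kernel

theorem rs_eq (i k : Fin 14) : pe d (rs i k) = ∑ j, d ^ Lg i j * pe d (MT j k) := by
  have h : ∀ l : List (Fin 14), pe d (l.foldr (fun j acc => addL (List.replicate (Lg i j) 0 ++ MT j k) acc) []) =
      (l.map (fun j => d ^ Lg i j * pe d (MT j k))).sum := by
    intro l
    induction l with
    | nil => rfl
    | cons a l ih => rw [List.foldr_cons, pe_add, pe_shift, ih, List.map_cons, List.sum_cons]
  rw [rs, h, ← List.ofFn_eq_map, List.sum_ofFn]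

theorem gram_inv' (i k : Fin 14) : ∑ j, d ^ Lg i j * pe d (MT j k) = if i = k then pe d DL else 0 := by
  have h1 := pe_zero d _ (rs_check i k)
  rw [pe_add, rs_eq] at h1
  split_ifs at h1 ⊢ with hik
  · rw [pe_neg] at h1
    linear_combination h1
  · rw [pe, add_zero] at h1
    exact h1

theorem pe_DL : pe d DL = d * (d ^ 2 - 1) * (d ^ 2 - 2) * (d ^ 4 - 3 * d ^ 2 + 1) := by
  simp only [DL, pe]
  push_cast
  ring

end

/-- the exceptional factor `(1 - t)^2 (1 - t^3) (1 - t^4) (1 - t^5)` -/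
noncomputable def kap : ℤ[T;T⁻¹] :=
  (1 - T (-4)) ^ 2 * (1 - T (-4) ^ 3) * (1 - T (-4) ^ 4) * (1 - T (-4) ^ 5)

theorem kap_eq : P0 ^ 5 * pe dd DL = -T 28 * kap := by
  have e := tt1
  have h4 : (T (-4) : ℤ[T;T⁻¹]) = T (-1) ^ 4 := by rw [T_pow]; norm_num
  have h28 : (T 28 : ℤ[T;T⁻¹]) = T 1 ^ 28 := by rw [T_pow]; norm_num
  have eP : P0 = T 1 ^ 2 - T (-1) ^ 2 := by
    rw [P0, T_pow, T_pow]
    norm_num
  rw [pe_DL, kap, h4, h28, eP, dd]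
  generalize (T 1 : ℤ[T;T⁻¹]) = a at *
  generalize (T (-1) : ℤ[T;T⁻¹]) = b at *
  have e1 : a ^ 2 - b ^ 2 = a ^ 2 * (1 - b ^ 4) := by
    linear_combination b ^ 2 * (1 + a * b) * e
  have e2 : -a ^ 2 - b ^ 2 = -(a ^ 2 * (1 + b ^ 4)) := by
    linear_combination b ^ 2 * (1 + a * b) * e
  have e3 : (-a ^ 2 - b ^ 2) ^ 2 - 1 = a ^ 4 * (1 + b ^ 4 + b ^ 8) := by
    grind
  have e4 : (-a ^ 2 - b ^ 2) ^ 2 - 2 = a ^ 4 * (1 + b ^ 8) := by
    grind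
  have e5 : (-a ^ 2 - b ^ 2) ^ 4 - 3 * (-a ^ 2 - b ^ 2) ^ 2 + 1 =
      a ^ 8 * (1 + b ^ 4 + b ^ 8 + b ^ 12 + b ^ 16) := by
    grind
  rw [e3, e4, e5, e1, e2]
  ring

theorem core_kap {h : ℤ[T;T⁻¹]} {D : Fin 14 → ℤ[T;T⁻¹]}
    (hs : ∀ w ∈ tst, h ∣ Bf D (co (T 1) (T (-1)) dd w)) : ∀ j, h ∣ kap * D j := by
  intro j
  have h1 : ∀ k, h ∣ ∑ i, (P0 ^ 5 * D i) * dd ^ Lg i k := by
    intro k
    have h2 := basis14 _ (Bf D) hs k
    rw [Bf_single, Finset.mul_sum] at h2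
    refine h2.trans (dvd_of_eq (Finset.sum_congr rfl fun i _ => ?_))
    ring
  have h2 : h ∣ ∑ k, (∑ i, (P0 ^ 5 * D i) * dd ^ Lg i k) * pe dd (MT k j) :=
    Finset.dvd_sum fun k _ => Dvd.dvd.mul_right (h1 k) _
  have h3 : ∑ k, (∑ i, (P0 ^ 5 * D i) * dd ^ Lg i k) * pe dd (MT k j) = -T 28 * (kap * D j) := by
    have h4 : ∀ k, (∑ i, (P0 ^ 5 * D i) * dd ^ Lg i k) * pe dd (MT k j) =
        ∑ i, (P0 ^ 5 * D i) * (dd ^ Lg i k * pe dd (MT k j)) := by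
      intro k
      rw [Finset.sum_mul]
      exact Finset.sum_congr rfl fun i _ => by ring
    rw [Finset.sum_congr rfl (fun k _ => h4 k), Finset.sum_comm]
    have h5 : ∀ i, ∑ k, (P0 ^ 5 * D i) * (dd ^ Lg i k * pe dd (MT k j)) =
        (P0 ^ 5 * D i) * (if i = j then pe dd DL else 0) := by
      intro i
      rw [← Finset.mul_sum, gram_inv']
    rw [Finset.sum_congr rfl (fun i _ => h5 i), Finset.sum_eq_single j
      (fun b _ hb => by rw [if_neg hb, mul_zero]) (by simp), if_pos rfl]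
    linear_combination D j * kap_eq
  rw [h3] at h2
  have h6 := Dvd.dvd.mul_left h2 (-T (-28))
  have e28 : (T (-28) : ℤ[T;T⁻¹]) * T 28 = 1 := by rw [← T_add]; norm_num
  have h7 : -T (-28) * (-T 28 * (kap * D j)) = kap * D j := by
    linear_combination kap * D j * e28
  rwa [h7] at h6

/-- the general modulus -/
theorem all_mod' {h : ℤ[T;T⁻¹]} {x : List (Bool × ℕ)} (hx : ∀ y ∈ x, y.2 + 1 < 4) (he : expo x = 0)
    (hs : ∀ w ∈ tst, h ∣ ff (braidClosure 4) (x ++ w) - 1) (O : Outer 4)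
    {v : List (Bool × ℕ)} (hv : ∀ y ∈ v, y.2 + 1 < 4) :
    h ∣ kap * (brk O (x ++ v) - brk O v) := by
  refine dvd_brk O x v hx hv kap h fun j => ?_
  have h1 := core_kap (h := h) (D := un (expo x) • co (T 1) (T (-1)) dd x - one14) (fun w hw => by
    rw [test_iff x hx hw]
    exact Dvd.dvd.mul_left (hs w hw) _) j
  rw [he, un_zero, one_smul, Pi.sub_apply] at h1
  exact h1

/-- conversely -/
theorem brk_tests' {h : ℤ[T;T⁻¹]} {x : List (Bool × ℕ)} (hx : ∀ y ∈ x, y.2 + 1 < 4) (hp : permL x = 1)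
    (he : expo x = 0)
    (hb : ∀ w ∈ tst, h ∣ brk (braidClosure 4) (x ++ w) - brk (braidClosure 4) w) :
    ∀ w ∈ tst, h ∣ ff (braidClosure 4) (x ++ w) - 1 := by
  intro w ht
  have hw := tst_short ht
  rw [← hw.ff_eq, ff_of_brk hx hp (braidClosure 4) (by rw [cost_expo x hx, he]) hw.lt]
  exact Dvd.dvd.mul_left (hb w ht) _

end Pool.Agent.J5.H37.FD
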