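import Mathlib

/-!
# Linear systems of Laurent polynomials with dominant entries, modulo an integer
-/

set_option autoImplicit false

namespace Pool.Agent.J5.H37.FD

open Polynomial LaurentPolynomial Finset

theorem poly_dom {ι R : Type*} [Fintype ι] [DecidableEq ι] [CommRing R] (p : ι → R[X]) (q : ι → ι → R[X])
    (σ : ι → ι) (t : ℕ) (hq : ∀ i k, (q i k).natDegree ≤ t) (h1 : ∀ j, (q j (σ j)).coeff t = 1)
    (h0 : ∀ i j, i ≠ j → (q i (σ j)).coeff t = 0) (h : ∀ k, ∑ j, p j * q j k = 0) : ∀ j, p j = 0 := by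
  have key : ∀ m : ℕ, (∀ j i, m ≤ i → (p j).coeff i = 0) → ∀ j, p j = 0 := by
    intro m
    induction m with
    | zero =>
      intro hm j
      ext i
      rw [hm j i (Nat.zero_le i), Polynomial.coeff_zero]
    | succ m ih =>
      intro hm
      apply ih
      intro j i hi
      rcases Nat.eq_or_lt_of_le hi with rfl | hi
      · have h2 := congrArg (fun f : R[X] => f.coeff (m + t)) (h (σ j))
        simp only [Polynomial.finsetSum_coeff, Polynomial.coeff_zero] at h2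
        have hd : ∀ k, (p k).natDegree ≤ m := fun k =>
          Polynomial.natDegree_le_iff_coeff_eq_zero.2 (fun i hi => hm k i hi)
        have h3 : ∀ k, (p k * q k (σ j)).coeff (m + t) = (p k).coeff m * (q k (σ j)).coeff t := fun k =>
          Polynomial.coeff_mul_add_eq_of_natDegree_le (hd k) (hq k _)
        rw [Finset.sum_eq_single j (fun b _ hb => by rw [h3, h0 b j hb, mul_zero]) (by simp), h3, h1,
          mul_one] at h2
        exact h2
      · exact hm j i hi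
  refine key ((univ.sup fun j => (p j).natDegree) + 1) fun j i hi => ?_
  apply Polynomial.coeff_eq_zero_of_natDegree_lt
  have h2 := Finset.le_sup (f := fun j => (p j).natDegree) (mem_univ j)
  omega

theorem dvd_coeff {n : ℕ} {F : ℤ[X]} (h : (n : ℤ[T;T⁻¹]) ∣ toLaurent F) (i : ℕ) : (n : ℤ) ∣ F.coeff i := by
  obtain ⟨g, hg⟩ := h
  obtain ⟨m, G, hG⟩ := LaurentPolynomial.exists_T_pow g
  have h1 : toLaurent (F * X ^ m) = toLaurent (Polynomial.C (n : ℤ) * G) := by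
    rw [map_mul, map_mul, hG, hg, Polynomial.toLaurent_X_pow, Polynomial.toLaurent_C]
    have : (LaurentPolynomial.C (n : ℤ) : ℤ[T;T⁻¹]) = (n : ℤ[T;T⁻¹]) := by simp
    rw [this]
    ring
  have h2 := Polynomial.toLaurent_injective h1
  have h3 := congrArg (fun f : ℤ[X] => f.coeff (i + m)) h2
  simp only [Polynomial.coeff_mul_X_pow, Polynomial.coeff_C_mul] at h3
  exact ⟨_, h3⟩

theorem exists_common {ι : Type*} [Fintype ι] (D : ι → ℤ[T;T⁻¹]) :
    ∃ (m : ℕ) (P : ι → ℤ[X]), ∀ j, toLaurent (P j) = D j * T m := by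
  choose a P hP using fun j => LaurentPolynomial.exists_T_pow (D j)
  refine ⟨univ.sup a, fun j => P j * X ^ (univ.sup a - a j), fun j => ?_⟩
  have h1 : a j ≤ univ.sup a := Finset.le_sup (mem_univ j)
  rw [map_mul, hP, Polynomial.toLaurent_X_pow, mul_assoc, ← T_add]
  congr 2
  omega

/-- the dominance argument modulo an integer -/
theorem laurent_dom {ι : Type*} [Fintype ι] [DecidableEq ι] (n : ℕ) (D : ι → ℤ[T;T⁻¹])
    (G : ι → ι → ℤ[T;T⁻¹]) (Q : ι → ι → ℤ[X]) (s : ℤ) (hQ : ∀ i k, toLaurent (Q i k) = T s * G i k)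
    (σ : ι → ι) (t : ℕ) (hdeg : ∀ i k, (Q i k).natDegree ≤ t) (h1 : ∀ j, (Q j (σ j)).coeff t = 1)
    (h0 : ∀ i j, i ≠ j → (Q i (σ j)).coeff t = 0) (h : ∀ k, (n : ℤ[T;T⁻¹]) ∣ ∑ j, D j * G j k) :
    ∀ j, (n : ℤ[T;T⁻¹]) ∣ D j := by
  obtain ⟨m, P, hP⟩ := exists_common D
  have h2 : ∀ k, ∑ j, (P j).map (Int.castRingHom (ZMod n)) * (Q j k).map (Int.castRingHom (ZMod n)) = 0 := by
    intro k
    have h3 : (n : ℤ[T;T⁻¹]) ∣ toLaurent (∑ j, P j * Q j k) := by
      have h4 : toLaurent (∑ j, P j * Q j k) = (T m * T s) * ∑ j, D j * G j k := by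
        rw [map_sum, Finset.mul_sum]
        refine Finset.sum_congr rfl fun j _ => ?_
        rw [map_mul, hP, hQ]
        ring
      rw [h4]
      exact Dvd.dvd.mul_left (h k) _
    have h5 : (∑ j, P j * Q j k).map (Int.castRingHom (ZMod n)) = 0 := by
      ext i
      rw [Polynomial.coeff_map, Polynomial.coeff_zero, eq_intCast, ZMod.intCast_zmod_eq_zero_iff_dvd]
      exact dvd_coeff h3 i
    rw [← h5, Polynomial.map_sum]
    refine Finset.sum_congr rfl fun j _ => ?_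
    rw [Polynomial.map_mul]
  have h6 := poly_dom (fun j => (P j).map (Int.castRingHom (ZMod n)))
    (fun j k => (Q j k).map (Int.castRingHom (ZMod n))) σ t
    (fun i k => (Polynomial.natDegree_map_le).trans (hdeg i k))
    (fun j => by rw [Polynomial.coeff_map, h1, map_one])
    (fun i j hij => by rw [Polynomial.coeff_map, h0 i j hij, map_zero]) h2
  intro j
  have h7 : Polynomial.C (n : ℤ) ∣ P j := by
    rw [Polynomial.C_dvd_iff_dvd_coeff]
    intro i
    have h8 := congrArg (fun f : (ZMod n)[X] => f.coeff i) (h6 j)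
    simp only [Polynomial.coeff_map, Polynomial.coeff_zero, eq_intCast] at h8
    rwa [ZMod.intCast_zmod_eq_zero_iff_dvd] at h8
  obtain ⟨g, hg⟩ := h7
  have h9 : D j = toLaurent (P j) * T (-m) := by
    rw [hP, mul_assoc, ← T_add, show (m : ℤ) + -m = 0 by ring, T_zero, mul_one]
  rw [h9, hg, map_mul, Polynomial.toLaurent_C]
  have : (LaurentPolynomial.C (n : ℤ) : ℤ[T;T⁻¹]) = (n : ℤ[T;T⁻¹]) := by simp
  rw [this, mul_assoc]
  exact dvd_mul_right _ _

/-- the factor `A^2 - A^(-2)` -/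
noncomputable def P0 : ℤ[T;T⁻¹] := T 2 - T (-2)

theorem P0_cancel {n : ℕ} {g : ℤ[T;T⁻¹]} (h : (n : ℤ[T;T⁻¹]) ∣ P0 * g) : (n : ℤ[T;T⁻¹]) ∣ g := by
  refine laurent_dom (ι := Unit) n (fun _ => g) (fun _ _ => P0) (fun _ _ => X ^ 4 - 1) 2 ?_ id 4 ?_ ?_ ?_
    ?_ ()
  · intro _ _
    rw [map_sub, Polynomial.toLaurent_X_pow, map_one, P0, mul_sub, ← T_add, ← T_add]
    norm_num
  · intro _ _
    compute_degree
  · intro _
    simp [Polynomial.coeff_one]
  · intro i j hij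
    exact absurd (Subsingleton.elim i j) hij
  · intro _
    simpa [mul_comm] using h

/-- the powers of `- A^2 - A^(-2)`, times `A^8` -/
noncomputable def QL : ℕ → ℤ[X]
  | 0 => X ^ 8
  | 1 => -(X ^ 10 + X ^ 6)
  | 2 => X ^ 12 + 2 * X ^ 8 + X ^ 4
  | 3 => -(X ^ 14 + 3 * X ^ 10 + 3 * X ^ 6 + X ^ 2)
  | _ => X ^ 16 + 4 * X ^ 12 + 6 * X ^ 8 + 4 * X ^ 4 + 1

theorem QL_eq (l : ℕ) (hl : l ≤ 4) :
    toLaurent (QL l) = (T 8 : ℤ[T;T⁻¹]) * (-(T 1) ^ 2 - (T (-1)) ^ 2) ^ l := by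
  have hX : toLaurent (X : ℤ[X]) = T 1 := Polynomial.toLaurent_X
  have e : (T 1 : ℤ[T;T⁻¹]) * T (-1) = 1 := by rw [← T_add]; norm_num
  have h8 : (T 8 : ℤ[T;T⁻¹]) = T 1 ^ 8 := by rw [T_pow]; norm_num
  rw [h8]
  obtain rfl | rfl | rfl | rfl | rfl : l = 0 ∨ l = 1 ∨ l = 2 ∨ l = 3 ∨ l = 4 := by omega
  all_goals
    simp only [QL, map_add, map_neg, map_mul, map_pow, hX, map_one, map_ofNat]
    generalize (T 1 : ℤ[T;T⁻¹]) = a at e
    generalize (T (-1) : ℤ[T;T⁻¹]) = b at e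
  · ring
  · linear_combination a ^ 6 * (1 + a * b) * e
  · linear_combination -(a ^ 4 * (1 + a * b) * (1 + (a*b)^2) + 2 * a ^ 8 * (1 + a * b)) * e
  · linear_combination (3 * a ^ 10 * (1 + a * b) + 3 * a ^ 6 * (1 + a * b + (a*b)^2 + (a*b)^3) + a ^ 2 *
      (1 + a * b + (a*b)^2 + (a*b)^3 + (a*b)^4 + (a*b)^5)) * e
  · linear_combination -(4 * a ^ 12 * (1 + a * b) + 6 * a ^ 8 * (1 + a * b + (a*b)^2 + (a*b)^3) + 4 * a ^ 4 *
      (1 + a * b + (a*b)^2 + (a*b)^3 + (a*b)^4 + (a*b)^5) + (1 + a * b + (a*b)^2 + (a*b)^3 + (a*b)^4 +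
      (a*b)^5 + (a*b)^6 + (a*b)^7)) * e

theorem QL_deg (l : ℕ) : (QL l).natDegree ≤ 16 := by
  rw [Polynomial.natDegree_le_iff_coeff_eq_zero]
  intro N hN
  have h : ∀ k ≤ 16, N ≠ k := fun k hk => by omega
  have h1 : (1 : ℤ[X]).coeff N = 0 := by
    rw [Polynomial.coeff_one, if_neg (by omega)]
  have hX : ∀ k ≤ 16, (X ^ k : ℤ[X]).coeff N = 0 := fun k hk => by
    rw [Polynomial.coeff_X_pow, if_neg (h k hk)]
  match l with
  | 0 => simp [QL, hX]
  | 1 => simp [QL, hX]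
  | 2 => simp [QL, hX, Polynomial.coeff_ofNat_mul]
  | 3 => simp [QL, hX, Polynomial.coeff_ofNat_mul]
  | _ + 4 => simp [QL, hX, h1, Polynomial.coeff_ofNat_mul]

theorem QL_coeff (l : ℕ) (hl : l < 4) : (QL l).coeff 16 = 0 := by
  obtain rfl | rfl | rfl | rfl : l = 0 ∨ l = 1 ∨ l = 2 ∨ l = 3 := by omega
  all_goals
    simp [QL, Polynomial.coeff_X_pow, Polynomial.coeff_ofNat_mul]

theorem QL_four : (QL 4).coeff 16 = 1 := by
  simp [QL, Polynomial.coeff_X_pow, Polynomial.coeff_ofNat_mul, Polynomial.coeff_one]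

end Pool.Agent.J5.H37.FD
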