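import Pool.Agent.J5.H37.FD.Dom
import Pool.Agent.J5.H37.UJ.Short

/-!
# The trace form in coordinates, and the words which detect
-/

set_option autoImplicit false
set_option linter.unusedSimpArgs false

namespace Pool.Agent.J5.H37.FD

open Finset LaurentPolynomial Pool.Agent.H891R2.Jones Pool.Agent.W639.RB Pool.Agent.Y463.SK
  Pool.Agent.J5.H37.UJ

/-- the trace form -/
noncomputable def Bf (D : Fin 14 → ℤ[T;T⁻¹]) : (Fin 14 → ℤ[T;T⁻¹]) →ₗ[ℤ[T;T⁻¹]] ℤ[T;T⁻¹] where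
  toFun y := ∑ j, ∑ k, D j * (y k * dd ^ Lg j k)
  map_add' y y' := by
    rw [← Finset.sum_add_distrib]
    refine Finset.sum_congr rfl fun j _ => ?_
    rw [← Finset.sum_add_distrib]
    refine Finset.sum_congr rfl fun k _ => ?_
    rw [Pi.add_apply]
    ring
  map_smul' r y := by
    rw [RingHom.id_apply, smul_eq_mul, Finset.mul_sum]
    refine Finset.sum_congr rfl fun j _ => ?_
    rw [Finset.mul_sum]
    refine Finset.sum_congr rfl fun k _ => ?_
    rw [Pi.smul_apply, smul_eq_mul]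
    ring

theorem Bf_single (D : Fin 14 → ℤ[T;T⁻¹]) (k : Fin 14) : Bf D (Pi.single k 1) = ∑ j, D j * dd ^ Lg j k := by
  show ∑ j, ∑ i, D j * ((Pi.single k 1 : Fin 14 → ℤ[T;T⁻¹]) i * dd ^ Lg j i) = _
  refine Finset.sum_congr rfl fun j _ => ?_
  rw [Finset.sum_eq_single k (fun b _ hb => by rw [Pi.single_eq_of_ne hb, zero_mul, mul_zero]) (by simp),
    Pi.single_eq_same, one_mul]

theorem Bf_left_smul (r : ℤ[T;T⁻¹]) (D y : Fin 14 → ℤ[T;T⁻¹]) : Bf (r • D) y = r * Bf D y := by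
  show ∑ j, ∑ k, (r • D) j * (y k * dd ^ Lg j k) = r * ∑ j, ∑ k, D j * (y k * dd ^ Lg j k)
  rw [Finset.mul_sum]
  refine Finset.sum_congr rfl fun j _ => ?_
  rw [Finset.mul_sum]
  refine Finset.sum_congr rfl fun k _ => ?_
  rw [Pi.smul_apply, smul_eq_mul]
  ring

theorem Bf_left_sub (D D' y : Fin 14 → ℤ[T;T⁻¹]) : Bf (D - D') y = Bf D y - Bf D' y := by
  show ∑ j, ∑ k, (D - D') j * (y k * dd ^ Lg j k) = ∑ j, ∑ k, D j * (y k * dd ^ Lg j k) -
    ∑ j, ∑ k, D' j * (y k * dd ^ Lg j k)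
  rw [← Finset.sum_sub_distrib]
  refine Finset.sum_congr rfl fun j _ => ?_
  rw [← Finset.sum_sub_distrib]
  refine Finset.sum_congr rfl fun k _ => ?_
  rw [Pi.sub_apply]
  ring

/-- the form computes the trace -/
theorem tr_lc (N : {N : ℕ // 3 ≤ N}) (D y : Fin 14 → ℤ[T;T⁻¹]) :
    trN N (lc (EB 4) D * lc (EB 4) y) = ev N.1 N.2 (Bf D y) := by
  show _ = ev N.1 N.2 (∑ j, ∑ k, D j * (y k * dd ^ Lg j k))
  unfold lc
  rw [Finset.sum_mul, trN_sum, map_sum]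
  refine Finset.sum_congr rfl fun j _ => ?_
  rw [smul_mul_assoc, trN_smul, Finset.mul_sum, trN_sum, map_sum, Finset.mul_sum]
  refine Finset.sum_congr rfl fun k _ => ?_
  rw [mul_smul_comm, trN_smul, tr_bs2, map_mul, map_mul, map_pow, ev_dd]

/-- a generator as a linear map -/
noncomputable def El (i : ℕ) : (Fin 14 → ℤ[T;T⁻¹]) →ₗ[ℤ[T;T⁻¹]] (Fin 14 → ℤ[T;T⁻¹]) where
  toFun y := E dd i y
  map_add' := E_add dd i
  map_smul' := E_smul dd i

/-- generator or one -/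
noncomputable def Eb (b : Bool) (i : ℕ) : (Fin 14 → ℤ[T;T⁻¹]) →ₗ[ℤ[T;T⁻¹]] (Fin 14 → ℤ[T;T⁻¹]) :=
  if b then El i else LinearMap.id

theorem sign_step (h : ℤ[T;T⁻¹]) (μ : (Fin 14 → ℤ[T;T⁻¹]) →ₗ[ℤ[T;T⁻¹]] ℤ[T;T⁻¹]) (i : ℕ)
    (y : Fin 14 → ℤ[T;T⁻¹]) (hs : ∀ s : Bool, h ∣ μ (La (T 1) (T (-1)) dd (s, i) y)) (b : Bool) :
    h ∣ P0 * μ (Eb b i y) := by
  have ht := hs true
  have hf := hs false
  simp only [La, if_true, Bool.false_eq_true, if_false, map_add, map_smul, smul_eq_mul] at ht hf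
  have e1 : (T 1 : ℤ[T;T⁻¹]) * T (-1) = 1 := by rw [← T_add]; norm_num
  have e2 : (T 2 : ℤ[T;T⁻¹]) = T 1 * T 1 := by rw [← T_add]; norm_num
  have e3 : (T (-2) : ℤ[T;T⁻¹]) = T (-1) * T (-1) := by rw [← T_add]; norm_num
  obtain ⟨g, hg⟩ := ht
  obtain ⟨g', hg'⟩ := hf
  unfold P0
  rw [e2, e3]
  cases b with
  | false =>
    refine ⟨T 1 * g - T (-1) * g', ?_⟩
    show (T 1 * T 1 - T (-1) * T (-1)) * μ y = _
    linear_combination T 1 * hg - T (-1) * hg'
  | true =>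
    refine ⟨T 1 * g' - T (-1) * g, ?_⟩
    show (T 1 * T 1 - T (-1) * T (-1)) * μ (E dd i y) = _
    linear_combination T 1 * hg' - T (-1) * hg

theorem three_step (h : ℤ[T;T⁻¹]) (μ : (Fin 14 → ℤ[T;T⁻¹]) →ₗ[ℤ[T;T⁻¹]] ℤ[T;T⁻¹]) (i j k : ℕ)
    (hs : ∀ s1 s2 s3 : Bool, h ∣ μ (co (T 1) (T (-1)) dd [(s1, i), (s2, j), (s3, k)])) (b1 b2 b3 : Bool) :
    h ∣ P0 ^ 3 * μ (Eb b1 i (Eb b2 j (Eb b3 k one14))) := by
  have h1 : ∀ s2 s3 : Bool, h ∣ P0 * μ (Eb b1 i (La (T 1) (T (-1)) dd (s2, j)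
      (La (T 1) (T (-1)) dd (s3, k) one14))) := fun s2 s3 =>
    sign_step h μ i _ (fun s => hs s s2 s3) b1
  have h2 : ∀ s3 : Bool, h ∣ P0 * (P0 * μ (Eb b1 i (Eb b2 j (La (T 1) (T (-1)) dd (s3, k) one14)))) :=
    fun s3 => by
    have := sign_step h ((P0 • μ).comp (Eb b1 i)) j (La (T 1) (T (-1)) dd (s3, k) one14)
      (fun s => h1 s s3) b2
    exact this
  have h3 := sign_step h ((P0 • (P0 • μ)).comp ((Eb b1 i).comp (Eb b2 j))) k one14 (fun s => h2 s) b3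
  have e : P0 ^ 3 * μ (Eb b1 i (Eb b2 j (Eb b3 k one14))) =
      P0 * (((P0 • (P0 • μ)).comp ((Eb b1 i).comp (Eb b2 j))) (Eb b3 k one14)) := by
    show _ = P0 * (P0 * (P0 * μ (Eb b1 i (Eb b2 j (Eb b3 k one14)))))
    ring
  rw [e]
  exact h3

theorem co_w5' : co (T 1 : ℤ[T;T⁻¹]) (T (-1)) dd w5 13 = T (-3) * P0 := by
  rw [← sub_eq_zero]
  apply eq_zero_of_ev
  intro N hN
  have hA := Ar_ne N hN
  rw [map_sub, ev_co ⟨N, hN⟩, co_w5 hA (Ar_d N hN), map_mul, P0, map_sub, ev_T, ev_T, ev_T]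
  have e1 : Ar N ^ (-3 : ℤ) = (Ar N ^ 3)⁻¹ := by
    rw [show (-3 : ℤ) = -((3 : ℕ) : ℤ) by norm_num, zpow_neg, zpow_natCast]
  have e2 : Ar N ^ (-2 : ℤ) = (Ar N ^ 2)⁻¹ := by
    rw [show (-2 : ℤ) = -((2 : ℕ) : ℤ) by norm_num, zpow_neg, zpow_natCast]
  have e3 : Ar N ^ (2 : ℤ) = Ar N ^ 2 := by
    rw [show (2 : ℤ) = ((2 : ℕ) : ℤ) by norm_num, zpow_natCast]
  rw [e1, e2, e3]
  field_simp
  ring

/-- if a functional is divisible on the short words, then it is divisible on all diagrams, up to a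
factor -/
theorem all_basis (h : ℤ[T;T⁻¹]) (μ : (Fin 14 → ℤ[T;T⁻¹]) →ₗ[ℤ[T;T⁻¹]] ℤ[T;T⁻¹])
    (hs : ∀ w, IsShort w → h ∣ μ (co (T 1) (T (-1)) dd w)) (k : Fin 14) :
    h ∣ P0 ^ 4 * μ (Pi.single k 1) := by
  have ho : ∀ o ∈ ords, ∀ b1 b2 b3 : Bool,
      h ∣ P0 ^ 3 * μ (Eb b1 o.1 (Eb b2 o.2.1 (Eb b3 o.2.2 one14))) := fun o ho b1 b2 b3 =>
    three_step h μ o.1 o.2.1 o.2.2 (fun s1 s2 s3 => hs _ (Or.inr ⟨o, ho, s1, s2, s3, rfl⟩)) b1 b2 b3
  have h012 := ho (0, 1, 2) (by simp [ords])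
  have h210 := ho (2, 1, 0) (by simp [ords])
  have h120 := ho (1, 2, 0) (by simp [ords])
  have h201 := ho (2, 0, 1) (by simp [ords])
  have hlt : ∀ k : Fin 14, k ≠ 13 → h ∣ P0 ^ 3 * μ (Pi.single k 1) := by
    intro k hk
    have key : ∀ v : Fin 14 → ℤ[T;T⁻¹], v = Pi.single k 1 → h ∣ P0 ^ 3 * μ v →
        h ∣ P0 ^ 3 * μ (Pi.single k 1) := fun v hv h1 => hv ▸ h1
    fin_cases k
    · refine key _ ?_ (h012 false false false)
      funext j; fin_cases j <;> simp [Eb, El, E, one14_eq, Pi.single_apply]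
    · refine key _ ?_ (h012 true false false)
      funext j; fin_cases j <;> simp [Eb, El, E, one14_eq, Pi.single_apply]
    · refine key _ ?_ (h012 false true false)
      funext j; fin_cases j <;> simp [Eb, El, E, one14_eq, Pi.single_apply]
    · refine key _ ?_ (h012 false false true)
      funext j; fin_cases j <;> simp [Eb, El, E, one14_eq, Pi.single_apply]
    · refine key _ ?_ (h210 false true true)
      funext j; fin_cases j <;> simp [Eb, El, E, one14_eq, Pi.single_apply]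
    · refine key _ ?_ (h210 true false true)
      funext j; fin_cases j <;> simp [Eb, El, E, one14_eq, Pi.single_apply]
    · refine key _ ?_ (h012 true true false)
      funext j; fin_cases j <;> simp [Eb, El, E, one14_eq, Pi.single_apply]
    · refine key _ ?_ (h210 true true false)
      funext j; fin_cases j <;> simp [Eb, El, E, one14_eq, Pi.single_apply]
    · refine key _ ?_ (h012 false true true)
      funext j; fin_cases j <;> simp [Eb, El, E, one14_eq, Pi.single_apply]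
    · refine key _ ?_ (h210 true true true)
      funext j; fin_cases j <;> simp [Eb, El, E, one14_eq, Pi.single_apply]
    · refine key _ ?_ (h120 true true true)
      funext j; fin_cases j <;> simp [Eb, El, E, one14_eq, Pi.single_apply]
    · refine key _ ?_ (h201 true true true)
      funext j; fin_cases j <;> simp [Eb, El, E, one14_eq, Pi.single_apply]
    · refine key _ ?_ (h012 true true true)
      funext j; fin_cases j <;> simp [Eb, El, E, one14_eq, Pi.single_apply]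
    · exact absurd rfl hk
  by_cases hk : k = 13
  · subst hk
    have h5 := hs w5 (Or.inl rfl)
    have h6 : co (T 1) (T (-1)) dd w5 =
        ∑ i, co (T 1 : ℤ[T;T⁻¹]) (T (-1)) dd w5 i • (Pi.single i 1 : Fin 14 → ℤ[T;T⁻¹]) := by
      funext j
      rw [Finset.sum_apply, Finset.sum_eq_single j]
      · simp
      · intro b _ hb
        simp [Pi.single_apply, hb.symm]
      · simp
    rw [h6, map_sum] at h5
    simp only [map_smul, smul_eq_mul] at h5
    have h7 := Dvd.dvd.mul_left h5 (P0 ^ 3)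
    rw [Finset.mul_sum, ← Finset.add_sum_erase _ _ (mem_univ (13 : Fin 14))] at h7
    have h8 : h ∣ ∑ i ∈ univ.erase (13 : Fin 14), P0 ^ 3 * (co (T 1 : ℤ[T;T⁻¹]) (T (-1)) dd w5 i *
        μ (Pi.single i 1)) := by
      refine Finset.dvd_sum fun i hi => ?_
      rw [mul_left_comm]
      exact Dvd.dvd.mul_left (hlt i (Finset.ne_of_mem_erase hi)) _
    have h9 := (dvd_add_left h8).1 h7
    rw [co_w5'] at h9
    have h10 := Dvd.dvd.mul_left h9 (T 3)
    have e1 : (T 3 : ℤ[T;T⁻¹]) * T (-3) = 1 := by rw [← T_add]; norm_num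
    have e2 : T 3 * (P0 ^ 3 * (T (-3) * P0 * μ (Pi.single 13 1))) = P0 ^ 4 * μ (Pi.single 13 1) := by
      linear_combination P0 ^ 4 * μ (Pi.single 13 1) * e1
    rwa [e2] at h10
  · rw [pow_succ', mul_assoc]
    exact Dvd.dvd.mul_left (hlt k hk) _

end Pool.Agent.J5.H37.FD
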