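import Pool.Agent.J5.H37.FD.Test

/-!
# Words detected by the closures with the short words
-/

set_option autoImplicit false

namespace Pool.Agent.J5.H37.FD

open Finset LaurentPolynomial Pool.Agent.H891R2.Jones Pool.Agent.W639.RB Pool.Agent.Y463.SK
  Pool.Agent.J5.H37.UJ

variable {m : ℕ}

/-- the bracket of the diagram with a word in the box -/
noncomputable def brk (O : Outer m) (w : List (Bool × ℕ)) : ℤ[T;T⁻¹] := (draw O w).close.bracket

/-- the unit `(-A^(-3))^c` -/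
noncomputable def un (c : ℤ) : ℤ[T;T⁻¹] := sgn c * T (-3 * c)

theorem sgn_add (a b : ℤ) : sgn (a + b) = sgn a * sgn b := by
  unfold sgn
  by_cases ha : Even a <;> by_cases hb : Even b <;> simp [Int.even_add, ha, hb]

theorem un_add (a b : ℤ) : un (a + b) = un a * un b := by
  unfold un
  rw [sgn_add, show -3 * (a + b) = -3 * a + -3 * b by ring, T_add]
  ring

theorem un_zero : un 0 = 1 := by
  simp [un, sgn]

theorem un_inv (a : ℤ) : un a * un (-a) = 1 := by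
  rw [← un_add, add_neg_cancel, un_zero]

theorem ff_brk (O : Outer m) (w : List (Bool × ℕ)) (hw : ∀ x ∈ w, x.2 + 1 < m) :
    ff O w = un (owr O + costS w (pat O.up)) * brk O w := by
  have h1 : (draw O w).close.writhe = owr O + costS w (pat O.up) := by
    rw [close_writhe]
    exact (draw_writhe w O hw).1
  unfold ff brk un sgn Diagram.fPoly
  rw [h1]

theorem brk_value (hm : 0 < m) (O : Outer m) (v w : List (Bool × ℕ)) (hv : ∀ x ∈ v, x.2 + 1 < m)
    (hw : ∀ x ∈ w, x.2 + 1 < m) (N : {N : ℕ // 3 ≤ N}) :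
    (N.1 : ℂ) * ev N.1 N.2 (brk O (w ++ v)) = Fn O N v (bb m w) := by
  have hwv : ∀ x ∈ w ++ v, x.2 + 1 < m := by
    intro x hx
    rcases List.mem_append.1 hx with h | h
    · exact hw x h
    · exact hv x h
  have h1 := ff_value hm O v w hv hw N
  rw [ff_brk O _ hwv] at h1
  set c := owr O + costS (w ++ v) (pat O.up) with hc
  have h2 : sgn c * T (-3 * c) = un c := rfl
  rw [h2, map_mul] at h1
  have h3 := congrArg (ev N.1 N.2) (un_inv c)
  rw [map_mul, map_one] at h3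
  linear_combination ev N.1 N.2 (un (-c)) * h1 -
    ((N.1 : ℂ) * ev N.1 N.2 (brk O (w ++ v)) - Fn O N v (bb m w)) * h3

/-- the transfer for the bracket -/
theorem transferB (hm : 0 < m) (O : Outer m) (c v : List (Bool × ℕ)) (hc : ∀ x ∈ c, x.2 + 1 < m)
    (hv : ∀ x ∈ v, x.2 + 1 < m) (κ h : ℤ[T;T⁻¹]) (z : BB m)
    (hz : z ∈ Algebra.adjoin ℤ[T;T⁻¹] (Set.range (EB m))) (hcz : κ • bb m c = κ • (1 : BB m) + h • z) :
    h ∣ κ * (brk O (c ++ v) - brk O v) := by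
  obtain ⟨g, hg⟩ := fn_exists hm O v hv z hz
  refine ⟨g, ?_⟩
  rw [← sub_eq_zero]
  apply eq_zero_of_ev
  intro N hN
  have hNC : (N : ℂ) ≠ 0 := by
    rw [Nat.cast_ne_zero]; omega
  have h1 := brk_value hm O v c hv hc ⟨N, hN⟩
  have h2 := brk_value hm O v [] hv (by simp) ⟨N, hN⟩
  rw [List.nil_append] at h2
  have h3 : bb m [] = 1 := rfl
  rw [h3] at h2
  have h5 := congrArg (Fn O ⟨N, hN⟩ v) hcz
  rw [Fn_smul, Fn_add, Fn_smul, Fn_smul, ← hg ⟨N, hN⟩, ← h1, ← h2] at h5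
  simp only at h5
  have h4 : (N : ℂ) * ev N hN (κ * (brk O (c ++ v) - brk O v) - h * g) = 0 := by
    rw [map_sub, map_mul, map_mul, map_sub]
    linear_combination h5
  exact (mul_eq_zero.1 h4).resolve_left hNC

theorem lc_mem (C : Fin 14 → ℤ[T;T⁻¹]) :
    lc (EB 4) C ∈ Algebra.adjoin ℤ[T;T⁻¹] (Set.range (EB 4)) := by
  unfold lc
  refine Subalgebra.sum_mem _ fun j _ => Subalgebra.smul_mem _ ?_ _
  rw [bs_eq]
  refine Subalgebra.list_prod_mem _ fun y hy => ?_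
  obtain ⟨i, _, rfl⟩ := List.mem_map.1 hy
  exact Algebra.subset_adjoin ⟨i, rfl⟩

/-- from the coordinates to the diagrams -/
theorem dvd_brk (O : Outer 4) (x v : List (Bool × ℕ)) (hx : ∀ y ∈ x, y.2 + 1 < 4)
    (hv : ∀ y ∈ v, y.2 + 1 < 4) (κ h : ℤ[T;T⁻¹])
    (hd : ∀ j, h ∣ κ * (co (T 1 : ℤ[T;T⁻¹]) (T (-1)) dd x j - one14 j)) :
    h ∣ κ * (brk O (x ++ v) - brk O v) := by
  choose C hC using hd
  refine transferB (by norm_num) O x v hx hv κ h (lc (EB 4) C) (lc_mem C) ?_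
  rw [bb_lc x hx, ← lc_smul, ← lc_smul]
  have h1 : (1 : BB 4) = lc (EB 4) (one14 : Fin 14 → ℤ[T;T⁻¹]) := lc_one.symm
  rw [h1, ← lc_smul, ← lc_add]
  congr 1
  funext j
  have := hC j
  simp only [Pi.smul_apply, Pi.add_apply, smul_eq_mul]
  linear_combination this

/-- the closure -/
theorem brk_closure (x w : List (Bool × ℕ)) (hx : ∀ y ∈ x, y.2 + 1 < 4) (hw : ∀ y ∈ w, y.2 + 1 < 4) :
    dd * brk (braidClosure 4) (x ++ w) = Bf (co (T 1) (T (-1)) dd x) (co (T 1) (T (-1)) dd w) := by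
  rw [← sub_eq_zero]
  apply eq_zero_of_ev
  intro N hN
  have h1 := brk_value (by norm_num) (braidClosure 4) w x hw hx ⟨N, hN⟩
  rw [Fn_tr, bb_lc x hx, bb_lc w hw, tr_lc] at h1
  rw [map_sub, map_mul, ev_dd ⟨N, hN⟩]
  exact sub_eq_zero.2 h1

theorem ff_closure (w : List (Bool × ℕ)) (hw : ∀ y ∈ w, y.2 + 1 < 4) :
    ff (braidClosure 4) w = un (expo w) * brk (braidClosure 4) w := by
  rw [ff_brk _ _ hw, owr_closure, zero_add, cost_expo w hw]

theorem app_lt {x w : List (Bool × ℕ)} (hx : ∀ y ∈ x, y.2 + 1 < 4) (hw : ∀ y ∈ w, y.2 + 1 < 4) :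
    ∀ y ∈ x ++ w, y.2 + 1 < 4 := by
  intro y hy
  rcases List.mem_append.1 hy with h | h
  · exact hx y h
  · exact hw y h

/-- the test values in coordinates -/
theorem test_iff (x : List (Bool × ℕ)) (hx : ∀ y ∈ x, y.2 + 1 < 4) {w : List (Bool × ℕ)} (ht : w ∈ tst) :
    Bf (un (expo x) • co (T 1) (T (-1)) dd x - one14) (co (T 1) (T (-1)) dd w) =
      (dd * un (-expo w)) * (ff (braidClosure 4) (x ++ w) - 1) := by
  have hw := tst_short ht
  have h1 := hw.ff_eq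
  rw [ff_closure w hw.lt] at h1
  have h2 : Bf one14 (co (T 1) (T (-1)) dd w) = dd * brk (braidClosure 4) w := by
    have := brk_closure [] w (by simp) hw.lt
    rw [List.nil_append] at this
    exact this.symm
  rw [Bf_left_sub, Bf_left_smul, ← brk_closure x w hx hw.lt, h2, ff_closure _ (app_lt hx hw.lt), expo_append,
    un_add]
  have h3 := un_inv (expo w)
  linear_combination -(dd * un (-expo w)) * h1 +
    (un (expo x) * dd * brk (braidClosure 4) (x ++ w) * (-1) + dd * brk (braidClosure 4) w) * h3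

/-! ### the Gram matrix modulo an integer -/

/-- the reflected diagram -/
def sg : Fin 14 → Fin 14 := ![0, 1, 2, 3, 6, 5, 4, 8, 7, 12, 11, 10, 9, 13]

theorem Lg_le : ∀ i k : Fin 14, Lg i k ≤ 4 := by decide
theorem Lg_sg : ∀ j : Fin 14, Lg j (sg j) = 4 := by decide
theorem Lg_lt : ∀ i j : Fin 14, i ≠ j → Lg i (sg j) < 4 := by decide

theorem gram_dvd {n : ℕ} {D : Fin 14 → ℤ[T;T⁻¹]}
    (h : ∀ k, (n : ℤ[T;T⁻¹]) ∣ ∑ j, D j * dd ^ Lg j k) : ∀ j, (n : ℤ[T;T⁻¹]) ∣ D j :=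
  laurent_dom n D (fun j k => dd ^ Lg j k) (fun j k => QL (Lg j k)) 8 (fun i k => QL_eq _ (Lg_le i k)) sg 16
    (fun _ _ => QL_deg _) (fun j => by rw [Lg_sg]; exact QL_four)
    (fun i j hij => QL_coeff _ (Lg_lt i j hij)) h

theorem core_nat {n : ℕ} {D : Fin 14 → ℤ[T;T⁻¹]}
    (h : ∀ w ∈ tst, (n : ℤ[T;T⁻¹]) ∣ Bf D (co (T 1) (T (-1)) dd w)) : ∀ j, (n : ℤ[T;T⁻¹]) ∣ D j := by
  apply gram_dvd
  intro k
  have h1 := basis14 _ (Bf D) h k
  rw [Bf_single, show P0 ^ 5 * (∑ j, D j * dd ^ Lg j k) = P0 * (P0 * (P0 * (P0 * (P0 *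
    ∑ j, D j * dd ^ Lg j k)))) by ring] at h1
  exact P0_cancel (P0_cancel (P0_cancel (P0_cancel (P0_cancel h1))))

/-! ### the Gram determinant -/

/-- the Gram matrix -/
noncomputable def Gm : Matrix (Fin 14) (Fin 14) ℤ[T;T⁻¹] := Matrix.of fun j k => dd ^ Lg j k

theorem Gm_det : Gm.det ≠ 0 := by
  intro h4
  have h5 : (ph.mapMatrix Gm).det = 0 := by
    rw [← RingHom.map_det, h4, map_zero]
  have h6 : ph.mapMatrix Gm * Iv = 1 := by
    refine Matrix.ext fun i k => ?_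
    have h9 := gram_inv i k
    have h10 : (ph.mapMatrix Gm * Iv) i k = ∑ j, ((21 : ZMod 101) ^ Lg i j) * Iv j k := by
      rw [Matrix.mul_apply]
      refine Finset.sum_congr rfl fun j _ => ?_
      have h11 : ph.mapMatrix Gm i j = (21 : ZMod 101) ^ Lg i j := by
        rw [RingHom.mapMatrix_apply, Matrix.map_apply, Gm, Matrix.of_apply, map_pow, ph_dd]
        norm_num
      rw [h11]
    rw [h10, h9, Matrix.one_apply]
  have h7 := congrArg Matrix.det h6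
  rw [Matrix.det_mul, h5, zero_mul, Matrix.det_one] at h7
  exact absurd h7 (by decide)

/-- the exceptional factor -/
noncomputable def kap0 : ℤ[T;T⁻¹] := Gm.det * P0 ^ 5

theorem P0_ne : P0 ≠ 0 := by
  intro h
  have h4 : (T 2 : ℤ[T;T⁻¹]) = T (-2) := by
    unfold P0 at h
    linear_combination h
  have h5 := (Finsupp.single_left_inj (one_ne_zero (α := ℤ))).1 (by exact congrArg AddMonoidAlgebra.coeff h4)
  omega

theorem kap0_ne : kap0 ≠ 0 := mul_ne_zero Gm_det (pow_ne_zero 5 P0_ne)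

theorem core_all {h : ℤ[T;T⁻¹]} {D : Fin 14 → ℤ[T;T⁻¹]}
    (hs : ∀ w ∈ tst, h ∣ Bf D (co (T 1) (T (-1)) dd w)) : ∀ j, h ∣ kap0 * D j := by
  intro j
  have h1 : ∀ k, h ∣ ∑ i, (P0 ^ 5 * D i) * Gm i k := by
    intro k
    have h2 := basis14 _ (Bf D) hs k
    rw [Bf_single, Finset.mul_sum] at h2
    refine h2.trans (dvd_of_eq (Finset.sum_congr rfl fun i _ => ?_))
    rw [Gm, Matrix.of_apply]
    ring
  have h2 : ∑ k, (∑ i, (P0 ^ 5 * D i) * Gm i k) * Gm.adjugate k j = kap0 * D j := by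
    have h3 : Matrix.vecMul (Matrix.vecMul (fun i => P0 ^ 5 * D i) Gm) Gm.adjugate j =
        kap0 * D j := by
      rw [Matrix.vecMul_vecMul, Matrix.mul_adjugate, Matrix.vecMul_smul, Matrix.vecMul_one,
        Pi.smul_apply, smul_eq_mul, kap0]
      ring
    rw [← h3]
    rfl
  rw [← h2]
  exact Finset.dvd_sum fun k _ => Dvd.dvd.mul_right (h1 k) _

/-! ### the exponent sum -/

theorem co_zero (x : List (Bool × ℕ)) (hx : ∀ y ∈ x, y.2 + 1 < 4) :
    co (T 1 : ℤ[T;T⁻¹]) (T (-1)) dd x 0 = T (expo x) := by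
  induction x with
  | nil => simp [co, one14, expo]
  | cons y x ih =>
    have h0 : ∀ (i : ℕ) (z : Fin 14 → ℤ[T;T⁻¹]), i < 3 → E dd i z 0 = 0 := by
      intro i z hi
      obtain rfl | rfl | rfl : i = 0 ∨ i = 1 ∨ i = 2 := by omega
      all_goals simp [E]
    have h1 := ih (fun z hz => hx z (List.mem_cons_of_mem _ hz))
    have h2 := hx y List.mem_cons_self
    have h3 : co (T 1 : ℤ[T;T⁻¹]) (T (-1)) dd (y :: x) =
      La (T 1) (T (-1)) dd y (co (T 1) (T (-1)) dd x) := rfl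
    have h4 : expo (y :: x) = (if y.1 then 1 else -1) + expo x := by simp [expo]
    rw [h3, h4, T_add]
    unfold La
    split_ifs
    · rw [Pi.add_apply, Pi.smul_apply, Pi.smul_apply, h0 _ _ (by omega), h1, smul_zero, add_zero,
        smul_eq_mul]
    · rw [Pi.add_apply, Pi.smul_apply, Pi.smul_apply, h0 _ _ (by omega), h1, smul_zero, add_zero,
        smul_eq_mul]

theorem one_of_dvd {n : ℕ} {c : ℤ[T;T⁻¹]} (hc : c = 1 ∨ c = -1) {a : ℤ} (ha : a ≠ 0)
    (h : (n : ℤ[T;T⁻¹]) ∣ c * T a - 1) : n = 1 := by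
  obtain ⟨g, hg⟩ := h
  have h1 := congrArg (fun f : ℤ[T;T⁻¹] => f.coeff 0) hg
  have hT : (T a : ℤ[T;T⁻¹]).coeff 0 = 0 := by
    rw [LaurentPolynomial.T_apply, if_neg ha]
  have hone : (1 : ℤ[T;T⁻¹]).coeff 0 = 1 := by
    rw [← T_zero, LaurentPolynomial.T_apply, if_pos rfl]
  have hn : ((n : ℤ[T;T⁻¹]) * g).coeff 0 = n * g.coeff 0 := by
    have : (n : ℤ[T;T⁻¹]) * g = (n : ℤ) • g := by
      rw [zsmul_eq_mul]
      simp
    rw [this, AddMonoidAlgebra.coeff_smul, Finsupp.smul_apply, smul_eq_mul]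
  have hl : (c * T a - 1 : ℤ[T;T⁻¹]).coeff 0 = -1 := by
    rcases hc with rfl | rfl
    · simp [hT, hone]
    · simp [hT, hone]
  rw [hl, hn] at h1
  have h2 : (n : ℤ) ∣ 1 := ⟨-g.coeff 0, by linear_combination -h1⟩
  have h3 := Int.eq_one_of_dvd_one (by positivity) h2
  exact_mod_cast h3

theorem sgn_or (c : ℤ) : sgn c = 1 ∨ sgn c = -1 := by
  unfold sgn
  split_ifs
  · exact Or.inl rfl
  · exact Or.inr rfl

/-- the exponent sum is zero -/
theorem expo_zero {n : ℕ} (hn : n ≠ 1) {x : List (Bool × ℕ)} (hx : ∀ y ∈ x, y.2 + 1 < 4)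
    (h : ∀ j, (n : ℤ[T;T⁻¹]) ∣ (un (expo x) • co (T 1) (T (-1)) dd x - one14 : Fin 14 → ℤ[T;T⁻¹]) j) :
    expo x = 0 := by
  by_contra he
  apply hn
  have h0 := h 0
  rw [Pi.sub_apply, Pi.smul_apply, co_zero x hx, smul_eq_mul, un, mul_assoc, ← T_add] at h0
  have e1 : (one14 : Fin 14 → ℤ[T;T⁻¹]) 0 = 1 := by simp [one14]
  rw [e1] at h0
  exact one_of_dvd (sgn_or _) (by omega) h0

theorem expo_zero' {n : ℕ} (hn : n ≠ 1) {x : List (Bool × ℕ)} (hx : ∀ y ∈ x, y.2 + 1 < 4)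
    (h : ∀ j, (n : ℤ[T;T⁻¹]) ∣ (co (T 1) (T (-1)) dd x - one14 : Fin 14 → ℤ[T;T⁻¹]) j) :
    expo x = 0 := by
  by_contra he
  apply hn
  have h0 := h 0
  rw [Pi.sub_apply, co_zero x hx] at h0
  have e1 : (one14 : Fin 14 → ℤ[T;T⁻¹]) 0 = 1 := by simp [one14]
  rw [e1, ← one_mul (T (expo x))] at h0
  exact one_of_dvd (Or.inl rfl) he h0

/-! ### the equivalences -/

/-- the tests in coordinates -/
theorem coords_of_tests {n : ℕ} {x : List (Bool × ℕ)} (hx : ∀ y ∈ x, y.2 + 1 < 4)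
    (h : ∀ w ∈ tst, (n : ℤ[T;T⁻¹]) ∣ ff (braidClosure 4) (x ++ w) - 1) :
    ∀ j, (n : ℤ[T;T⁻¹]) ∣ (un (expo x) • co (T 1) (T (-1)) dd x - one14 : Fin 14 → ℤ[T;T⁻¹]) j := by
  apply core_nat
  intro w hw
  rw [test_iff x hx hw]
  exact Dvd.dvd.mul_left (h w hw) _

theorem tests_brk {n : ℕ} {x : List (Bool × ℕ)} (hx : ∀ y ∈ x, y.2 + 1 < 4)
    (h : ∀ w ∈ tst, (n : ℤ[T;T⁻¹]) ∣ ff (braidClosure 4) (x ++ w) - 1) (O : Outer 4)
    {v : List (Bool × ℕ)} (hv : ∀ y ∈ v, y.2 + 1 < 4) :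
    (n : ℤ[T;T⁻¹]) ∣ brk O (x ++ v) - brk O v := by
  by_cases hn : n = 1
  · subst hn
    rw [Nat.cast_one]
    exact one_dvd _
  · have h1 := coords_of_tests hx h
    have h2 := expo_zero hn hx h1
    have h3 := dvd_brk O x v hx hv 1 n (fun j => by
      have := h1 j
      rw [h2, un_zero, one_smul] at this
      rw [one_mul]
      exact this)
    rwa [one_mul] at h3

theorem brk_coords {n : ℕ} {x : List (Bool × ℕ)} (hx : ∀ y ∈ x, y.2 + 1 < 4)
    (h : ∀ w ∈ tst, (n : ℤ[T;T⁻¹]) ∣ brk (braidClosure 4) (x ++ w) - brk (braidClosure 4) w) :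
    ∀ j, (n : ℤ[T;T⁻¹]) ∣ (co (T 1) (T (-1)) dd x - one14 : Fin 14 → ℤ[T;T⁻¹]) j := by
  apply core_nat
  intro w ht
  have hw := tst_short ht
  have h2 : Bf one14 (co (T 1) (T (-1)) dd w) = dd * brk (braidClosure 4) w := by
    have := brk_closure [] w (by simp) hw.lt
    rw [List.nil_append] at this
    exact this.symm
  rw [Bf_left_sub, ← brk_closure x w hx hw.lt, h2, ← mul_sub]
  exact Dvd.dvd.mul_left (h w ht) _

/-- the effect on the normalised polynomial if the exponent sum is zero -/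
theorem ff_of_brk {x : List (Bool × ℕ)} (hx : ∀ y ∈ x, y.2 + 1 < 4) (hp : permL x = 1) (O : Outer 4)
    (hc : costS x (pat O.up) = 0) {v : List (Bool × ℕ)} (hv : ∀ y ∈ v, y.2 + 1 < 4) :
    ff O (x ++ v) - ff O v = un (owr O + costS v (pat O.up)) * (brk O (x ++ v) - brk O v) := by
  have hU : pat O.up ∘ ⇑(1 : Equiv.Perm ℕ) = pat O.up := rfl
  rw [ff_brk O _ (app_lt hx hv), ff_brk O v hv, costS_append, hc, hp, hU, zero_add]
  ring

/-- parallel strands -/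
theorem costS_par (x : List (Bool × ℕ)) : ∀ (U : ℕ → ℤ), (∀ y ∈ x, y.2 + 1 < 4) →
    (∀ i j, i < 4 → j < 4 → U i * U j = 1) → costS x U = expo x := by
  induction x with
  | nil => intro U _ _; rfl
  | cons y x ih =>
    intro U hx hU
    have h2 := hx y List.mem_cons_self
    have h4 : expo (y :: x) = (if y.1 then 1 else -1) + expo x := by simp [expo]
    have h5 : costS (y :: x) U = (if y.1 then 1 else -1) * (U y.2 * U (y.2+1)) +
      costS x (U ∘ Equiv.swap y.2 (y.2+1)) := rfl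
    have hs : ∀ i, i < 4 → Equiv.swap y.2 (y.2+1) i < 4 := by
      intro i hi
      rw [Equiv.swap_apply_def]
      split_ifs <;> omega
    rw [h4, h5, hU _ _ (by omega) h2, mul_one, ih (U ∘ Equiv.swap y.2 (y.2+1))
      (fun z hz => hx z (List.mem_cons_of_mem _ hz)) (fun i j hi hj => hU _ _ (hs i hi) (hs j hj))]

theorem pat_par {O : Outer 4} (hO : ∀ i, O.up i = O.up 0) : ∀ i j, i < 4 → j < 4 →
    pat O.up i * pat O.up j = 1 := by
  intro i j hi hj
  unfold pat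
  rw [dif_pos hi, dif_pos hj, hO, hO ⟨j, hj⟩]
  split_ifs <;> norm_num

theorem tests_par {n : ℕ} {x : List (Bool × ℕ)} (hx : ∀ y ∈ x, y.2 + 1 < 4) (hp : permL x = 1)
    (h : ∀ w ∈ tst, (n : ℤ[T;T⁻¹]) ∣ ff (braidClosure 4) (x ++ w) - 1) (O : Outer 4)
    (hO : ∀ i, O.up i = O.up 0) {v : List (Bool × ℕ)} (hv : ∀ y ∈ v, y.2 + 1 < 4) :
    (n : ℤ[T;T⁻¹]) ∣ ff O (x ++ v) - ff O v := by
  by_cases hn : n = 1
  · subst hn
    rw [Nat.cast_one]
    exact one_dvd _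
  · have h2 := expo_zero hn hx (coords_of_tests hx h)
    rw [ff_of_brk hx hp O (by rw [costS_par x _ hx (pat_par hO), h2]) hv]
    exact Dvd.dvd.mul_left (tests_brk hx h O hv) _

theorem brk_tests {n : ℕ} {x : List (Bool × ℕ)} (hx : ∀ y ∈ x, y.2 + 1 < 4) (hp : permL x = 1)
    (h : ∀ w ∈ tst, (n : ℤ[T;T⁻¹]) ∣ brk (braidClosure 4) (x ++ w) - brk (braidClosure 4) w) :
    ∀ w ∈ tst, (n : ℤ[T;T⁻¹]) ∣ ff (braidClosure 4) (x ++ w) - 1 := by
  intro w ht
  have hw := tst_short ht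
  by_cases hn : n = 1
  · subst hn
    rw [Nat.cast_one]
    exact one_dvd _
  · have h2 := expo_zero' hn hx (brk_coords hx h)
    rw [← hw.ff_eq, ff_of_brk hx hp (braidClosure 4) (by rw [cost_expo x hx, h2]) hw.lt]
    exact Dvd.dvd.mul_left (h w ht) _

/-- the general modulus -/
theorem all_mod {h : ℤ[T;T⁻¹]} {x : List (Bool × ℕ)} (hx : ∀ y ∈ x, y.2 + 1 < 4) (he : expo x = 0)
    (hs : ∀ w ∈ tst, h ∣ ff (braidClosure 4) (x ++ w) - 1) (O : Outer 4)
    {v : List (Bool × ℕ)} (hv : ∀ y ∈ v, y.2 + 1 < 4) :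
    h ∣ kap0 * (brk O (x ++ v) - brk O v) := by
  refine dvd_brk O x v hx hv kap0 h fun j => ?_
  have h1 := core_all (h := h) (D := un (expo x) • co (T 1) (T (-1)) dd x - one14) (fun w hw => by
    rw [test_iff x hx hw]
    exact Dvd.dvd.mul_left (hs w hw) _) j
  rw [he, un_zero, one_smul, Pi.sub_apply] at h1
  exact h1

end Pool.Agent.J5.H37.FD
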