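import Pool.Agent.J5.H37.FD.Form

/-!
# Fourteen words suffice
-/

set_option autoImplicit false
set_option linter.unusedSimpArgs false

namespace Pool.Agent.J5.H37.FD

open Finset LaurentPolynomial Pool.Agent.H891R2.Jones Pool.Agent.W639.RB Pool.Agent.Y463.SK
  Pool.Agent.J5.H37.UJ

/-- the fourteen test words -/
def tst : List (List (Bool × ℕ)) :=
  [[(true, 0), (true, 1), (true, 2)], [(true, 0), (true, 1), (false, 2)],
   [(true, 0), (false, 1), (true, 2)], [(true, 0), (false, 1), (false, 2)],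
   [(false, 0), (true, 1), (true, 2)], [(false, 0), (true, 1), (false, 2)],
   [(false, 0), (false, 1), (true, 2)], [(false, 0), (false, 1), (false, 2)],
   [(true, 2), (true, 1), (true, 0)], [(false, 2), (true, 1), (true, 0)],
   [(true, 2), (true, 1), (false, 0)], [(true, 1), (true, 2), (true, 0)],
   [(true, 2), (true, 0), (true, 1)], w5]

theorem tst_short {w : List (Bool × ℕ)} (h : w ∈ tst) : IsShort w := by
  simp only [tst, List.mem_cons, List.not_mem_nil, or_false] at h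
  have a1 : ((0, 1, 2) : ℕ × ℕ × ℕ) ∈ ords := by simp [ords]
  have a2 : ((2, 1, 0) : ℕ × ℕ × ℕ) ∈ ords := by simp [ords]
  have a3 : ((1, 2, 0) : ℕ × ℕ × ℕ) ∈ ords := by simp [ords]
  have a4 : ((2, 0, 1) : ℕ × ℕ × ℕ) ∈ ords := by simp [ords]
  rcases h with rfl | rfl | rfl | rfl | rfl | rfl | rfl | rfl | rfl | rfl | rfl | rfl | rfl | rfl
  · exact Or.inr ⟨_, a1, _, _, _, rfl⟩
  · exact Or.inr ⟨_, a1, _, _, _, rfl⟩
  · exact Or.inr ⟨_, a1, _, _, _, rfl⟩
  · exact Or.inr ⟨_, a1, _, _, _, rfl⟩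
  · exact Or.inr ⟨_, a1, _, _, _, rfl⟩
  · exact Or.inr ⟨_, a1, _, _, _, rfl⟩
  · exact Or.inr ⟨_, a1, _, _, _, rfl⟩
  · exact Or.inr ⟨_, a1, _, _, _, rfl⟩
  · exact Or.inr ⟨_, a2, _, _, _, rfl⟩
  · exact Or.inr ⟨_, a2, _, _, _, rfl⟩
  · exact Or.inr ⟨_, a2, _, _, _, rfl⟩
  · exact Or.inr ⟨_, a3, _, _, _, rfl⟩
  · exact Or.inr ⟨_, a4, _, _, _, rfl⟩
  · exact Or.inl rfl

/-- the value of a functional on a vector -/
theorem mu_sum (μ : (Fin 14 → ℤ[T;T⁻¹]) →ₗ[ℤ[T;T⁻¹]] ℤ[T;T⁻¹]) (y : Fin 14 → ℤ[T;T⁻¹]) :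
    μ y = ∑ i, y i * μ (Pi.single i 1) := by
  have h6 : y = ∑ i, y i • (Pi.single i 1 : Fin 14 → ℤ[T;T⁻¹]) := by
    funext j
    rw [Finset.sum_apply, Finset.sum_eq_single j]
    · simp
    · intro b _ hb
      simp [Pi.single_apply, hb.symm]
    · simp
  conv_lhs => rw [h6]
  rw [map_sum]
  simp only [map_smul, smul_eq_mul]

/-- peeling off the known part of a vector -/
theorem peel {h c : ℤ[T;T⁻¹]} (μ : (Fin 14 → ℤ[T;T⁻¹]) →ₗ[ℤ[T;T⁻¹]] ℤ[T;T⁻¹]) (K : Finset (Fin 14))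
    (hK : ∀ k ∈ K, h ∣ c * μ (Pi.single k 1)) (y : Fin 14 → ℤ[T;T⁻¹]) (hy : h ∣ μ y) :
    h ∣ ∑ i ∈ univ \ K, y i * (c * μ (Pi.single i 1)) := by
  have h1 := Dvd.dvd.mul_left hy c
  rw [mu_sum, Finset.mul_sum, ← Finset.sum_sdiff (subset_univ K)] at h1
  have h2 : h ∣ ∑ i ∈ K, c * (y i * μ (Pi.single i 1)) := by
    refine Finset.dvd_sum fun i hi => ?_
    rw [mul_left_comm]
    exact Dvd.dvd.mul_left (hK i hi) _
  have h3 := (dvd_add_left h2).1 h1
  refine h3.trans (dvd_of_eq (Finset.sum_congr rfl fun i _ => by ring))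

section

variable {K : Type*} [CommRing K] (A A' d : K)

theorem c1 : co A A' d [(true, 2), (true, 1), (true, 0)] =
    ![A * (A * A), A * (A * A'), A * (A' * A), A' * (A * A), A * (A' * A'), A' * (A * A'), 0,
      A' * (A' * A), 0, A' * (A' * A'), 0, 0, 0, 0] := by
  simp only [co, List.foldr_cons, List.foldr_nil, one14_eq, La, if_true, E, Matrix.smul_cons,
    Matrix.cons_add_cons, Matrix.cons_val, Matrix.smul_empty, Matrix.empty_add_empty,
    Bool.false_eq_true, if_false, smul_eq_mul, mul_zero, mul_one, add_zero, zero_add]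

theorem c2 : co A A' d [(false, 2), (true, 1), (true, 0)] =
    ![A' * (A * A), A' * (A * A'), A' * (A' * A), A * (A * A), A' * (A' * A'), A * (A * A'), 0,
      A * (A' * A), 0, A * (A' * A'), 0, 0, 0, 0] := by
  simp only [co, List.foldr_cons, List.foldr_nil, one14_eq, La, if_true, E, Matrix.smul_cons,
    Matrix.cons_add_cons, Matrix.cons_val, Matrix.smul_empty, Matrix.empty_add_empty,
    Bool.false_eq_true, if_false, smul_eq_mul, mul_zero, mul_one, add_zero, zero_add]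

theorem c3 : co A A' d [(true, 2), (true, 1), (false, 0)] =
    ![A * (A * A'), A * (A * A), A * (A' * A'), A' * (A * A'), A * (A' * A), A' * (A * A), 0,
      A' * (A' * A'), 0, A' * (A' * A), 0, 0, 0, 0] := by
  simp only [co, List.foldr_cons, List.foldr_nil, one14_eq, La, if_true, E, Matrix.smul_cons,
    Matrix.cons_add_cons, Matrix.cons_val, Matrix.smul_empty, Matrix.empty_add_empty,
    Bool.false_eq_true, if_false, smul_eq_mul, mul_zero, mul_one, add_zero, zero_add]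

theorem c4 : ∃ v : Fin 14 → K, co A A' d [(true, 1), (true, 2), (true, 0)] = v ∧ v 10 = A' * (A' * A') ∧
    v 11 = 0 ∧ v 13 = 0 := by
  refine ⟨_, rfl, ?_, ?_, ?_⟩ <;>
  simp only [co, List.foldr_cons, List.foldr_nil, one14_eq, La, if_true, E, Matrix.smul_cons,
    Matrix.cons_add_cons, Matrix.cons_val, Matrix.smul_empty, Matrix.empty_add_empty,
    Bool.false_eq_true, if_false, smul_eq_mul, mul_zero, mul_one, add_zero, zero_add]

theorem c5 : ∃ v : Fin 14 → K, co A A' d [(true, 2), (true, 0), (true, 1)] = v ∧ v 11 = A' * (A' * A') ∧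
    v 10 = 0 ∧ v 13 = 0 := by
  refine ⟨_, rfl, ?_, ?_, ?_⟩ <;>
  simp only [co, List.foldr_cons, List.foldr_nil, one14_eq, La, if_true, E, Matrix.smul_cons,
    Matrix.cons_add_cons, Matrix.cons_val, Matrix.smul_empty, Matrix.empty_add_empty,
    Bool.false_eq_true, if_false, smul_eq_mul, mul_zero, mul_one, add_zero, zero_add]

end

theorem tt1 : (T 1 : ℤ[T;T⁻¹]) * T (-1) = 1 := by rw [← T_add]; norm_num

/-- if a functional is divisible on the test words, then it is divisible on all diagrams, up to a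
factor -/
theorem basis14 (h : ℤ[T;T⁻¹]) (μ : (Fin 14 → ℤ[T;T⁻¹]) →ₗ[ℤ[T;T⁻¹]] ℤ[T;T⁻¹])
    (hs : ∀ w ∈ tst, h ∣ μ (co (T 1) (T (-1)) dd w)) (k : Fin 14) :
    h ∣ P0 ^ 5 * μ (Pi.single k 1) := by
  -- the first order
  have h012 := three_step h μ 0 1 2 (fun s1 s2 s3 => hs _ (by
    cases s1 <;> cases s2 <;> cases s3 <;> simp [tst]))
  have hA : ∀ k ∈ ({0, 1, 2, 3, 5, 6, 8, 12} : Finset (Fin 14)), h ∣ P0 ^ 3 * μ (Pi.single k 1) := by
    intro k hk
    have key : ∀ v : Fin 14 → ℤ[T;T⁻¹], v = Pi.single k 1 → h ∣ P0 ^ 3 * μ v →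
        h ∣ P0 ^ 3 * μ (Pi.single k 1) := fun v hv h1 => hv ▸ h1
    simp only [Finset.mem_insert, Finset.mem_singleton] at hk
    rcases hk with rfl | rfl | rfl | rfl | rfl | rfl | rfl | rfl
    · refine key _ ?_ (h012 false false false)
      funext j; fin_cases j <;> simp [Eb, El, E, one14_eq, Pi.single_apply]
    · refine key _ ?_ (h012 true false false)
      funext j; fin_cases j <;> simp [Eb, El, E, one14_eq, Pi.single_apply]
    · refine key _ ?_ (h012 false true false)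
      funext j; fin_cases j <;> simp [Eb, El, E, one14_eq, Pi.single_apply]
    · refine key _ ?_ (h012 false false true)
      funext j; fin_cases j <;> simp [Eb, El, E, one14_eq, Pi.single_apply]
    · refine key _ ?_ (h012 true false true)
      funext j; fin_cases j <;> simp [Eb, El, E, one14_eq, Pi.single_apply]
    · refine key _ ?_ (h012 true true false)
      funext j; fin_cases j <;> simp [Eb, El, E, one14_eq, Pi.single_apply]
    · refine key _ ?_ (h012 false true true)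
      funext j; fin_cases j <;> simp [Eb, El, E, one14_eq, Pi.single_apply]
    · refine key _ ?_ (h012 true true true)
      funext j; fin_cases j <;> simp [Eb, El, E, one14_eq, Pi.single_apply]
  -- the second order
  have hset : (univ \ ({0, 1, 2, 3, 5, 6, 8, 12} : Finset (Fin 14))) = {4, 7, 9, 10, 11, 13} := by decide
  have q1 := peel μ _ hA _ (hs [(true, 2), (true, 1), (true, 0)] (by simp [tst]))
  have q2 := peel μ _ hA _ (hs [(false, 2), (true, 1), (true, 0)] (by simp [tst]))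
  have q3 := peel μ _ hA _ (hs [(true, 2), (true, 1), (false, 0)] (by simp [tst]))
  rw [hset] at q1 q2 q3
  have hl : ∀ (f : Fin 14 → ℤ[T;T⁻¹]), ∑ i ∈ ({4, 7, 9, 10, 11, 13} : Finset (Fin 14)), f i =
      f 4 + (f 7 + (f 9 + (f 10 + (f 11 + f 13)))) := by
    intro f
    rw [Finset.sum_insert (by decide), Finset.sum_insert (by decide), Finset.sum_insert (by decide),
      Finset.sum_insert (by decide), Finset.sum_insert (by decide), Finset.sum_singleton]
  rw [hl] at q1 q2 q3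
  rw [c1] at q1
  rw [c2] at q2
  rw [c3] at q3
  simp only [Matrix.cons_val, zero_mul, add_zero] at q1 q2 q3
  have e := tt1
  have eP : P0 = T 1 ^ 2 - T (-1) ^ 2 := by
    rw [P0, T_pow, T_pow]
    norm_num
  have r4 : h ∣ P0 ^ 4 * μ (Pi.single 4 1) := by
    have := dvd_sub (Dvd.dvd.mul_left q1 (T 1 ^ 3)) (Dvd.dvd.mul_left q2 (T 1))
    refine this.trans (dvd_of_eq ?_)
    have e4 : P0 ^ 4 * μ (Pi.single 4 1) = P0 * (P0 ^ 3 * μ (Pi.single 4 1)) := by ring
    rw [e4]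
    generalize P0 ^ 3 * μ (Pi.single 4 1) = x
    generalize P0 ^ 3 * μ (Pi.single 7 1) = y
    generalize P0 ^ 3 * μ (Pi.single 9 1) = z
    rw [eP]
    clear eP this q1 q2 q3 e4
    generalize (T 1 : ℤ[T;T⁻¹]) = a at *
    generalize (T (-1) : ℤ[T;T⁻¹]) = b at *
    clear hs h012 hA
    grind
  have r7 : h ∣ P0 ^ 4 * μ (Pi.single 7 1) := by
    have := dvd_sub (Dvd.dvd.mul_left q1 (T 1 ^ 3)) (Dvd.dvd.mul_left q3 (T 1))
    refine this.trans (dvd_of_eq ?_)
    have e4 : P0 ^ 4 * μ (Pi.single 7 1) = P0 * (P0 ^ 3 * μ (Pi.single 7 1)) := by ring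
    rw [e4]
    generalize P0 ^ 3 * μ (Pi.single 4 1) = x
    generalize P0 ^ 3 * μ (Pi.single 7 1) = y
    generalize P0 ^ 3 * μ (Pi.single 9 1) = z
    rw [eP]
    clear eP this q1 q2 q3 e4
    generalize (T 1 : ℤ[T;T⁻¹]) = a at *
    generalize (T (-1) : ℤ[T;T⁻¹]) = b at *
    clear hs h012 hA
    grind
  have r9 : h ∣ P0 ^ 4 * μ (Pi.single 9 1) := by
    have h1 := Dvd.dvd.mul_left (Dvd.dvd.mul_left q1 P0) (T 1 ^ 3)
    have h2 := dvd_sub (dvd_sub h1 (Dvd.dvd.mul_left r4 (T 1 ^ 2))) (Dvd.dvd.mul_left r7 (T 1 ^ 2))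
    refine h2.trans (dvd_of_eq ?_)
    generalize μ (Pi.single 4 1) = x
    generalize μ (Pi.single 7 1) = y
    generalize μ (Pi.single 9 1) = z
    generalize P0 = c
    clear h1 h2 r4 r7 eP q1 q2 q3
    generalize (T 1 : ℤ[T;T⁻¹]) = a at *
    generalize (T (-1) : ℤ[T;T⁻¹]) = b at *
    clear hs h012 hA
    grind
  have hB : ∀ k ∈ ({0, 1, 2, 3, 4, 5, 6, 7, 8, 9, 12} : Finset (Fin 14)),
      h ∣ P0 ^ 4 * μ (Pi.single k 1) := by
    intro k hk
    by_cases h4 : k = 4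
    · rw [h4]; exact r4
    by_cases h7 : k = 7
    · rw [h7]; exact r7
    by_cases h9 : k = 9
    · rw [h9]; exact r9
    have := hA k (by revert k; decide)
    rw [pow_succ', mul_assoc]
    exact Dvd.dvd.mul_left this _
  have hset2 : (univ \ ({0, 1, 2, 3, 4, 5, 6, 7, 8, 9, 12} : Finset (Fin 14))) = {10, 11, 13} := by decide
  have hl2 : ∀ (f : Fin 14 → ℤ[T;T⁻¹]), ∑ i ∈ ({10, 11, 13} : Finset (Fin 14)), f i =
      f 10 + (f 11 + f 13) := by
    intro f
    rw [Finset.sum_insert (by decide), Finset.sum_insert (by decide), Finset.sum_singleton]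
  have u4 := peel μ _ hB _ (hs [(true, 1), (true, 2), (true, 0)] (by simp [tst]))
  have u5 := peel μ _ hB _ (hs [(true, 2), (true, 0), (true, 1)] (by simp [tst]))
  rw [hset2, hl2] at u4 u5
  obtain ⟨v4, hv4, a1, a2, a3⟩ := c4 (T 1 : ℤ[T;T⁻¹]) (T (-1)) dd
  obtain ⟨v5, hv5, b1, b2, b3⟩ := c5 (T 1 : ℤ[T;T⁻¹]) (T (-1)) dd
  rw [hv4, a1, a2, a3, zero_mul, zero_mul, add_zero, add_zero] at u4
  rw [hv5, b1, b2, b3, zero_mul, zero_mul, add_zero, zero_add] at u5
  have cub : (T 1 ^ 3 : ℤ[T;T⁻¹]) * (T (-1) * (T (-1) * T (-1))) = 1 := by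
    have : (T 1 ^ 3 : ℤ[T;T⁻¹]) * (T (-1) * (T (-1) * T (-1))) = (T 1 * T (-1)) ^ 3 := by ring
    rw [this, e, one_pow]
  have s10 : h ∣ P0 ^ 4 * μ (Pi.single 10 1) := by
    have := Dvd.dvd.mul_left u4 (T 1 ^ 3)
    rwa [← mul_assoc, cub, one_mul] at this
  have s11 : h ∣ P0 ^ 4 * μ (Pi.single 11 1) := by
    have := Dvd.dvd.mul_left u5 (T 1 ^ 3)
    rwa [← mul_assoc, cub, one_mul] at this
  have hC : ∀ k ∈ (univ.erase 13 : Finset (Fin 14)), h ∣ P0 ^ 4 * μ (Pi.single k 1) := by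
    intro k hk
    by_cases h10 : k = 10
    · rw [h10]; exact s10
    by_cases h11 : k = 11
    · rw [h11]; exact s11
    exact hB k (by revert k; decide)
  have hset3 : (univ \ (univ.erase 13 : Finset (Fin 14))) = {13} := by decide
  have u6 := peel μ _ hC _ (hs w5 (by simp [tst]))
  rw [hset3, Finset.sum_singleton, co_w5'] at u6
  have s13 : h ∣ P0 ^ 5 * μ (Pi.single 13 1) := by
    have h10 := Dvd.dvd.mul_left u6 (T 3)
    have e1 : (T 3 : ℤ[T;T⁻¹]) * T (-3) = 1 := by rw [← T_add]; norm_num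
    have e2 : T 3 * (T (-3) * P0 * (P0 ^ 4 * μ (Pi.single 13 1))) = P0 ^ 5 * μ (Pi.single 13 1) := by
      linear_combination P0 ^ 5 * μ (Pi.single 13 1) * e1
    rwa [e2] at h10
  by_cases hk : k = 13
  · rw [hk]; exact s13
  · rw [pow_succ', mul_assoc]
    exact Dvd.dvd.mul_left (hC k (by simp [hk])) _

end Pool.Agent.J5.H37.FD
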